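import Mathlib

namespace Pool.Agent.Results.MP_07c133_an.No

open Topology Filter Finset
open scoped NNReal

def Kothe {I : Type} (P : Set (I → ℝ≥0)) : Prop :=
  P.Countable ∧ (∀ i, ∃ p ∈ P, 0 < p i) ∧ ∀ p ∈ P, ∀ q ∈ P, ∃ r ∈ P, ∀ i, max (p i) (q i) ≤ r i

def InL {I : Type} (P : Set (I → ℝ≥0)) (x : I → ℂ) : Prop := ∀ p ∈ P, Summable fun i => ‖x i‖ * p i

theorem in_zero {I : Type} (P : Set (I → ℝ≥0)) : InL P 0 := fun p _ => by simpa using summable_zero

theorem in_add {I : Type} {P : Set (I → ℝ≥0)} {x y : I → ℂ} (a : InL P x) (b : InL P y) :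
    InL P (x + y) := fun p h => ((a p h).add (b p h)).of_nonneg_of_le (fun _ => by positivity)
  fun i => by rw [← add_mul]; exact mul_le_mul_of_nonneg_right (norm_add_le _ _) (p i).2

theorem in_smul {I : Type} {P : Set (I → ℝ≥0)} (c : ℂ) {x : I → ℂ} (a : InL P x) :
    InL P (c • x) := fun p h => by simpa [mul_assoc] using (a p h).mul_left ‖c‖

def Lam {I : Type} (P : Set (I → ℝ≥0)) : Submodule ℂ (I → ℂ) where
  carrier := {x | InL P x}
  zero_mem' := in_zero P
  add_mem' := in_add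
  smul_mem' := in_smul

def La {I : Type} (P : Set (I → ℝ≥0)) : Type := Lam P

noncomputable instance {I : Type} (P : Set (I → ℝ≥0)) : AddCommGroup (La P) :=
  inferInstanceAs (AddCommGroup (Lam P))

noncomputable instance {I : Type} (P : Set (I → ℝ≥0)) : Module ℂ (La P) :=
  inferInstanceAs (Module ℂ (Lam P))

noncomputable def nrm {I : Type} (p : I → ℝ≥0) (x : I → ℂ) : ℝ := ∑' i, ‖x i‖ * p i

theorem nrm_add {I : Type} {P : Set (I → ℝ≥0)} (p : P) (x y : La P) :
    nrm p.1 (x + y).1 ≤ nrm p.1 x.1 + nrm p.1 y.1 := by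
  rw [nrm, nrm, nrm, ← (x.2 p p.2).tsum_add (y.2 p p.2)]
  exact ((x + y).2 p p.2).tsum_le_tsum (fun i => by
    rw [← add_mul]; exact mul_le_mul_of_nonneg_right (norm_add_le _ _) (p.1 i).2)
    ((x.2 p p.2).add (y.2 p p.2))

theorem nrm_smul {I : Type} {P : Set (I → ℝ≥0)} (p : P) (c : ℂ) (x : La P) :
    nrm p.1 (c • x).1 = ‖c‖ * nrm p.1 x.1 := by
  rw [nrm, nrm, ← tsum_mul_left]
  exact tsum_congr fun i => by rw [← mul_assoc, ← norm_mul]; rfl

noncomputable def sn {I : Type} (P : Set (I → ℝ≥0)) : SeminormFamily ℂ (La P) P := fun p =>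
  Seminorm.of (fun x => nrm p.1 x.1) (nrm_add p) (nrm_smul p)

noncomputable instance {I : Type} (P : Set (I → ℝ≥0)) : TopologicalSpace (La P) :=
  (sn P).moduleFilterBasis.topology

def Bimod {A X : Type} [TopologicalSpace A] [TopologicalSpace X] (M : A → A → A → Prop)
    (L R : A → X → X) : Prop :=
  (Continuous fun q : A × X => L q.1 q.2) ∧ (Continuous fun q : A × X => R q.1 q.2) ∧
    (∀ a b c, M a b c → ∀ x, L c x = L a (L b x) ∧ R c x = R b (R a x)) ∧
    ∀ a b x, L a (R b x) = R b (L a x)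

def AppInner {A X : Type} [TopologicalSpace A] [TopologicalSpace X] [AddCommGroup X]
    (M : A → A → A → Prop) (L R : A → X → X) (D : A → X) : Prop :=
  Continuous D → (∀ a b c, M a b c → D c = L a (D b) + R b (D a)) →
    ∃ x : ℕ → X, ∀ a, Tendsto (fun m => L a (x m) - R a (x m)) atTop (𝓝 (D a))

def ApproxContr (A : Type) [AddCommGroup A] [Module ℂ A] [TopologicalSpace A]
    (M : A → A → A → Prop) : Prop :=
  ∀ (X : Type) [AddCommGroup X] [Module ℂ X] [TopologicalSpace X] [IsTopologicalAddGroup X]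
    [ContinuousSMul ℂ X] (L R : A →ₗ[ℂ] X →ₗ[ℂ] X) (D : A →ₗ[ℂ] X),
    Bimod M (fun a x => L a x) (fun a x => R a x) → AppInner M (fun a x => L a x) (fun a x => R a x) D

def Nuclear (E : Type) [AddCommGroup E] [Module ℂ E] [TopologicalSpace E] : Prop :=
  ∀ p : Seminorm ℂ E, Continuous p → ∃ q : Seminorm ℂ E, Continuous q ∧
    ∃ (f : ℕ → E →ₗ[ℂ] ℂ) (c : ℕ → ℝ), Summable c ∧ (∀ n, 0 ≤ c n) ∧
      (∀ n x, ‖f n x‖ ≤ c n * q x) ∧ ∀ x, p x ≤ ∑' n, ‖f n x‖

theorem ws {I : Type} (P : Set (I → ℝ≥0)) : WithSeminorms (sn P) := ⟨rfl⟩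

open Classical in
noncomputable def cut {I : Type} (P : Set (I → ℝ≥0)) (U : Finset I) (a : I → ℂ) : La P :=
  ⟨fun i => if i ∈ U then a i else 0, fun p _ => summable_of_ne_finset_zero (s := U)
    fun i h => by simp [h]⟩

theorem sn_cut {I : Type} (P : Set (I → ℝ≥0)) (U : Finset I) (a : I → ℂ) (p : P) :
    sn P p (cut P U a) = ∑ i ∈ U, ‖a i‖ * p.1 i :=
  (tsum_eq_sum (s := U) fun i h => by simp [cut, h]).trans
    (sum_congr rfl fun i h => by simp [cut, h])

theorem cut_sum {I : Type} (P : Set (I → ℝ≥0)) (U : Finset I) (a : I → ℂ) :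
    cut P U a = ∑ i ∈ U, a i • cut P {i} 1 := by
  classical
  induction U using Finset.induction_on with
  | empty => exact Subtype.ext (funext fun i => by simp [cut]; rfl)
  | insert j U h ih =>
    rw [sum_insert h, ← ih]
    refine Subtype.ext (funext fun i => ?_)
    show (cut P _ a).1 i = a j * (cut P {j} 1).1 i + (cut P U a).1 i
    by_cases e : i = j <;> simp [cut, e, h]

theorem ac {I : Type} (P : Set (I → ℝ≥0)) (U : ℕ → Finset I) (l : ℕ → ℂ) (h0 : ∀ m, l m ≠ 0)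
    (h1 : ∀ a : La P, Tendsto (fun m => l m • (a - cut P (U m) a.1)) atTop (𝓝 0))
    (h2 : ∀ a : La P, Tendsto (fun m => a - cut P (U m) a.1) atTop (𝓝 0))
    (h3 : Tendsto (fun m => (l m)⁻¹ • cut P (U m) 1) atTop (𝓝 0)) :
    ApproxContr (La P) fun a b c => c.1 = a.1 * b.1 := by
  classical
  intro X _ _ _ _ _ L R D ⟨c1, _, a1, a2⟩ c3 a3
  dsimp only at a1 a2 a3 ⊢
  refine ⟨fun m => ∑ i ∈ U m, L (cut P {i} 1) (D (cut P {i} 1)) - D (cut P (U m) 1) +
    L (cut P (U m) 1) (D (cut P (U m) 1)), fun a => ?_⟩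
  have t1 := (c1.tendsto (0, D 0)).comp ((h1 a).prodMk_nhds ((c3.tendsto 0).comp h3))
  have t2 := (c1.tendsto (0, D 0)).comp (h3.prodMk_nhds ((c3.tendsto 0).comp (h1 a)))
  have t3 := (((t2.sub t1).add_const (D a)).sub ((c3.tendsto 0).comp (h2 a)))
  simp only [map_zero, sub_zero, zero_add] at t3
  refine t3.congr fun m => ?_
  have e1 : ∀ i, L a (L (cut P {i} 1) (D (cut P {i} 1))) - R a (L (cut P {i} 1) (D (cut P {i} 1))) =
      L (cut P {i} 1) (D a) := fun i => by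
    have p1 : (a.1 i • cut P {i} 1).1 = a.1 * (cut P {i} 1).1 := funext fun j => by
      show a.1 i * (cut P {i} 1).1 j = a.1 j * (cut P {i} 1).1 j
      by_cases e : j = i <;> simp [cut, e]
    have p2 : (cut P {i} 1).1 = (cut P {i} 1).1 * (cut P {i} 1).1 := funext fun j => by
      by_cases e : j = i <;> simp [cut, e]
    have q := a3 _ _ _ (p1.trans (mul_comm _ _))
    rw [← (a1 _ _ _ p1 _).1, ← a2, ← sub_eq_iff_eq_add'.2 q, map_sub, ← (a1 _ _ _ p2 _).1]
    simp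
  have p1 : (cut P (U m) a.1).1 = a.1 * (cut P (U m) 1).1 := funext fun j => by
    by_cases e : j ∈ U m <;> simp [cut, e]
  have p2 : (cut P (U m) 1).1 = (cut P (U m) 1).1 * (cut P (U m) 1).1 := funext fun j => by
    by_cases e : j ∈ U m <;> simp [cut, e]
  have q := a3 _ _ _ (p1.trans (mul_comm _ _))
  have e2 : ∑ i ∈ U m, L (cut P {i} 1) (D a) = L (cut P (U m) 1) (D a) := by
    rw [cut_sum P (U m) 1]; simp
  rw [map_add, map_add, map_sub, map_sub, map_sum, map_sum, ← (a1 _ _ _ p1 _).1, ← a2,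
    ← sub_eq_iff_eq_add'.2 q, map_sub, ← (a1 _ _ _ p2 _).1, sub_eq_iff_eq_add.1 (e2.symm.trans
      ((sum_congr rfl fun i _ => (e1 i).symm).trans (sum_sub_distrib _ _))).symm]
  simp only [Function.comp, map_smul, LinearMap.smul_apply, smul_smul, map_sub, smul_sub,
    mul_inv_cancel₀ (h0 m), inv_mul_cancel₀ (h0 m), one_smul, LinearMap.sub_apply]
  abel

theorem signs {E I : Type} [AddCommGroup E] [Module ℂ E] (Q : E → ℝ) (h0 : Q 0 = 0)
    (h : ∀ x y, Q (x + y) + Q (x - y) = 2 * Q x + 2 * Q y) (e : I → E) (T : Finset I) :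
    ∃ ε : I → ℂ, (∀ i, ‖ε i‖ = 1) ∧ Q (∑ i ∈ T, ε i • e i) ≤ ∑ i ∈ T, Q (e i) := by
  classical
  induction T using Finset.induction_on with
  | empty => exact ⟨1, by simp, by simp [h0]⟩
  | insert j T hj ih =>
    obtain ⟨ε, a, b⟩ := ih
    have key : ∀ z : ℂ, ‖z‖ = 1 → Q (∑ i ∈ T, ε i • e i + z • e j) ≤
        Q (∑ i ∈ T, ε i • e i) + Q (e j) → ∃ ε : I → ℂ, (∀ i, ‖ε i‖ = 1) ∧
          Q (∑ i ∈ insert j T, ε i • e i) ≤ ∑ i ∈ insert j T, Q (e i) := fun z hz hq => by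
      refine ⟨Function.update ε j z, fun i => ?_, ?_⟩
      · by_cases e : i = j <;> simp [e, a, hz]
      rw [sum_insert hj, sum_insert hj, Function.update_self, add_comm, sum_congr rfl fun i hi => by
        rw [Function.update_of_ne (ne_of_mem_of_not_mem hi hj)]]
      linarith
    have := h (∑ i ∈ T, ε i • e i) (e j)
    by_cases c : Q (∑ i ∈ T, ε i • e i + e j) ≤ Q (∑ i ∈ T, ε i • e i) + Q (e j)
    · exact key 1 (by simp) (by rwa [one_smul])
    · exact key (-1) (by simp) (by rw [neg_smul, one_smul, ← sub_eq_add_neg]; linarith)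

def W : ℕ → ℕ
  | 0 => 2
  | m + 1 => (m + 1) ^ 2 * W m ^ (3 * m + 1)

theorem W_mono : Monotone W ∧ ∀ m, 2 ≤ W m := by
  have h : ∀ m, W m ≤ W (m + 1) := fun m => (Nat.le_self_pow (by omega) _).trans
    (Nat.le_mul_of_pos_left _ (by positivity))
  exact ⟨monotone_nat_of_le_succ h, fun m => monotone_nat_of_le_succ h (Nat.zero_le m)⟩

abbrev II : Type := Σ m : ℕ, Fin (W m ^ (2 * m))

def pp (k : ℕ) (i : II) : ℝ≥0 := (W i.1 : ℝ≥0) ^ k

def pk (k : ℕ) : Set.range pp := ⟨pp k, k, rfl⟩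

def UU (m : ℕ) : Finset II := (range (m + 1)).sigma fun _ => univ

theorem pp_mono {k l : ℕ} (h : k ≤ l) (i : II) : pp k i ≤ pp l i :=
  pow_le_pow_right₀ (by exact_mod_cast (W_mono.2 _).trans' one_le_two) h

theorem W_top : Tendsto (fun m => 1 / (W (m + 1) : ℝ)) atTop (𝓝 0) := by
  refine squeeze_zero (fun _ => by positivity) (fun m => one_div_le_one_div_of_le (by positivity) ?_)
    tendsto_one_div_add_atTop_nhds_zero_nat
  have := W_mono.2 m
  exact_mod_cast (Nat.le_self_pow two_ne_zero _).trans (Nat.le_mul_of_pos_right _ (by positivity))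

theorem tail (a : La (Set.range pp)) (k j m : ℕ) : sn _ (pk (k)) (a - cut _ (UU m) a.1) ≤
    sn _ (pk (k + j)) a * (1 / (W (m + 1) : ℝ)) ^ j := by
  refine (((a - cut _ (UU m) a.1).2 _ ⟨k, rfl⟩).tsum_le_tsum (fun i => ?_)
    ((a.2 _ ⟨k + j, rfl⟩).mul_right _)).trans (le_of_eq tsum_mul_right)
  show ‖a.1 i - (cut _ (UU m) a.1).1 i‖ * _ ≤ _
  by_cases h : i ∈ UU m
  · simp only [cut, h, if_true, sub_self, norm_zero, zero_mul]; positivity
  have h1 : (W (m + 1) : ℝ) ≤ W i.1 := by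
    exact_mod_cast W_mono.1 (not_lt.1 fun c => h (mem_sigma.2 ⟨mem_range.2 c, mem_univ _⟩))
  have h2 : (0:ℝ) < W (m + 1) := by exact_mod_cast (W_mono.2 _).trans_lt' two_pos
  simp only [cut, h, if_false, sub_zero, pk, pp, NNReal.coe_pow, NNReal.coe_natCast]
  rw [pow_add, mul_assoc, mul_assoc, ← mul_pow, mul_one_div]
  exact mul_le_mul_of_nonneg_left (le_mul_of_one_le_right (by positivity)
    (one_le_pow₀ ((one_le_div h2).2 h1))) (norm_nonneg _)

theorem head {k m : ℕ} (h : k ≤ m) : 1 / (W (m + 1) : ℝ) * sn _ (pk (k))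
    (cut (Set.range pp) (UU m) 1) ≤ 1 / ((m:ℝ) + 1) := by
  have h0 : (0:ℝ) < W m := by exact_mod_cast (W_mono.2 _).trans_lt' two_pos
  have h1 : (1:ℝ) ≤ W m := by exact_mod_cast (W_mono.2 _).trans' one_le_two
  have : sn _ (pk (k)) (cut (Set.range pp) (UU m) 1) ≤ (m + 1) * (W m : ℝ) ^ (3 * m + 1) := by
    rw [sn_cut, UU, sum_sigma]
    refine (sum_le_card_nsmul _ _ ((W m : ℝ) ^ (3 * m + 1)) fun l hl => ?_).trans (by simp)
    have h2 : l ≤ m := Nat.lt_succ_iff.1 (mem_range.1 hl)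
    have h3 : (W l : ℝ) ≤ W m := by exact_mod_cast W_mono.1 h2
    simp only [pk, pp, Pi.one_apply, norm_one, one_mul, NNReal.coe_pow, NNReal.coe_natCast, sum_const,
      card_univ, Fintype.card_fin, nsmul_eq_mul, Nat.cast_pow]
    rw [← pow_add]
    exact (pow_le_pow_left₀ (by positivity) h3 _).trans (pow_le_pow_right₀ h1 (by omega))
  refine (mul_le_mul_of_nonneg_left this (by positivity)).trans (le_of_eq ?_)
  rw [W]; push_cast; field_simp

theorem result : ∃ (I : Type) (P : Set (I → ℝ≥0)), Kothe P ∧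
    (∀ x ∈ Lam P, ∀ y ∈ Lam P, x * y ∈ Lam P) ∧
    ApproxContr (La P) (fun a b c => c.1 = a.1 * b.1) ∧ ¬ Nuclear (La P) := by
  have hW : ∀ m, (0:ℝ) < W m := fun m => by exact_mod_cast (W_mono.2 _).trans_lt' two_pos
  refine ⟨II, Set.range pp, ⟨Set.countable_range _, fun i => ⟨_, ⟨0, rfl⟩, by simp [pp]⟩, ?_⟩,
    fun x hx y hy p hp => ?_, ac _ UU (fun m => W (m + 1)) (fun m => by exact_mod_cast (hW _).ne')
      (fun a => ?_) (fun a => ?_) ?_, fun h => ?_⟩
  · rintro _ ⟨k, rfl⟩ _ ⟨l, rfl⟩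
    exact ⟨_, ⟨max k l, rfl⟩, fun i => max_le (pp_mono (le_max_left _ _) i)
      (pp_mono (le_max_right _ _) i)⟩
  · have h1 : Summable fun i => ‖y i‖ := by simpa [pp] using hy _ ⟨0, rfl⟩
    refine ((hx p hp).mul_left (∑' i, ‖y i‖)).of_nonneg_of_le (fun _ => by positivity) fun i => ?_
    rw [Pi.mul_apply, norm_mul, mul_comm ‖x i‖, mul_assoc]
    exact mul_le_mul_of_nonneg_right (h1.le_tsum i fun _ _ => norm_nonneg _) (by positivity)
  · refine ((ws _).tendsto_nhds _ _).2 ?_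
    rintro ⟨_, k, rfl⟩ ε hε
    filter_upwards [(W_top.const_mul (sn _ (pk (k + 2)) a)).eventually (gt_mem_nhds
      (show _ < ε by simpa using hε))] with m hm
    rw [sub_zero, map_smul_eq_mul, Complex.norm_natCast]
    refine ((mul_le_mul_of_nonneg_left (tail a k 2 m) (hW _).le).trans (le_of_eq ?_)).trans_lt hm
    have := hW (m + 1)
    field_simp
  · refine ((ws _).tendsto_nhds _ _).2 ?_
    rintro ⟨_, k, rfl⟩ ε hε
    filter_upwards [(W_top.const_mul (sn _ (pk (k + 1)) a)).eventually (gt_mem_nhds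
      (show _ < ε by simpa using hε))] with m hm
    rw [sub_zero]
    exact ((tail a k 1 m).trans (by rw [pow_one])).trans_lt hm
  · refine ((ws _).tendsto_nhds _ _).2 ?_
    rintro ⟨_, k, rfl⟩ ε hε
    filter_upwards [tendsto_one_div_add_atTop_nhds_zero_nat.eventually (gt_mem_nhds hε),
      eventually_ge_atTop k] with m hm hk
    rw [sub_zero, map_smul_eq_mul, norm_inv, Complex.norm_natCast, ← one_div]
    exact (head hk).trans_lt hm
  obtain ⟨q, hq, f, c, c1, c0, c2, c3⟩ := h _ ((ws _).continuous_seminorm (pk 0))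
  obtain ⟨s, C, -, hC⟩ := Seminorm.bound_of_continuous (ws _) q hq
  obtain ⟨K, hK⟩ : ∃ K, ∀ p ∈ s, ∀ i, p.1 i ≤ pp K i := by
    choose k hk using fun p : Set.range pp => p.2
    exact ⟨s.sup k, fun p h i => hk p ▸ pp_mono (le_sup h) i⟩
  have q1 : ∀ i, q (cut _ {i} 1) ≤ (C + 1) * (W i.1 : ℝ) ^ K := fun i => by
    refine (hC _).trans ?_
    rw [smul_apply, NNReal.smul_def, smul_eq_mul]
    refine mul_le_mul (by linarith) (Seminorm.finset_sup_apply_le (by positivity) fun p h => ?_)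
      (apply_nonneg _ _) (by positivity)
    rw [sn_cut, sum_singleton, Pi.one_apply, norm_one, one_mul]
    exact (NNReal.coe_le_coe.2 (hK p h i)).trans (le_of_eq (by simp [pp]))
  have q2 : ∀ x n, ‖f n x‖ ^ 2 / c n ≤ c n * q x ^ 2 := fun x n => by
    refine div_le_of_le_mul₀ (c0 n) (mul_nonneg (c0 n) (by positivity)) ?_
    exact (pow_le_pow_left₀ (norm_nonneg _) (c2 n x) 2).trans (le_of_eq (by ring))
  have q3 : ∀ x, Summable fun n => ‖f n x‖ ^ 2 / c n := fun x =>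
    (c1.mul_right _).of_nonneg_of_le (fun n => div_nonneg (by positivity) (c0 n)) (q2 x)
  obtain ⟨j, hj⟩ := pow_unbounded_of_one_lt ((∑' n, c n) * (C + 1)) one_lt_two
  obtain ⟨ε, e1, e2⟩ := signs (fun x => ∑' n, ‖f n x‖ ^ 2 / c n) (by simp) (fun x y => by
    rw [← (q3 _).tsum_add (q3 _), ← tsum_mul_left, ← tsum_mul_left,
      ← ((q3 _).mul_left _).tsum_add ((q3 _).mul_left _)]
    refine tsum_congr fun n => ?_
    rw [← add_div, map_add, map_sub, parallelogram_law_with_norm ℂ]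
    ring) (fun i => cut (Set.range pp) {i} 1) (({K + j} : Finset ℕ).sigma fun _ => univ)
  rw [← cut_sum] at e2
  have e3 := c3 (cut _ (({K + j} : Finset ℕ).sigma fun _ => univ) ε)
  rw [sn_cut] at e3
  generalize cut _ _ ε = x at e2 e3
  obtain ⟨w, hw⟩ : ∃ w : ℝ, w = W (K + j) := ⟨_, rfl⟩
  have w2 : 2 ≤ w := by rw [hw]; exact_mod_cast W_mono.2 _
  obtain ⟨μ, hμ⟩ : ∃ μ : ℝ, μ = (C + 1) * w ^ K * w ^ (K + j) := ⟨_, rfl⟩
  have μ0 : 0 < μ := by rw [hμ]; positivity
  have e4 : ∑' n, ‖f n x‖ ^ 2 / c n ≤ (∑' n, c n) * μ ^ 2 := by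
    refine e2.trans ((sum_le_card_nsmul _ _ ((∑' n, c n) * ((C + 1) * w ^ K) ^ 2)
      fun i hi => ?_).trans (le_of_eq ?_))
    · rw [← tsum_mul_right]
      refine (q3 _).tsum_le_tsum (fun n => (q2 _ n).trans (mul_le_mul_of_nonneg_left
        (pow_le_pow_left₀ (apply_nonneg _ _) ?_ 2) (c0 n))) (c1.mul_right _)
      rw [hw, ← mem_singleton.1 (mem_sigma.1 hi).1]
      exact q1 i
    · simp only [card_sigma, sum_singleton, card_univ, Fintype.card_fin, nsmul_eq_mul, Nat.cast_pow,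
        ← hw, hμ]
      ring
  have e5 : ∑' n, ‖f n x‖ ≤ (∑' n, c n) * μ := by
    have : ∀ n, ‖f n x‖ ≤ ‖f n x‖ ^ 2 / c n / (2 * μ) + c n * (μ / 2) := fun n => by
      rcases (c0 n).eq_or_lt with a | a
      · simpa [← a] using c2 n x
      rw [div_div, div_add' _ _ _ (by positivity), le_div_iff₀ (by positivity)]
      nlinarith [sq_nonneg (‖f n x‖ - c n * μ)]
    have s1 := ((q3 x).div_const (2 * μ)).add (c1.mul_right (μ / 2))
    refine ((s1.of_nonneg_of_le (fun _ => norm_nonneg _) this).tsum_le_tsum this s1).trans ?_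
    rw [((q3 x).div_const _).tsum_add (c1.mul_right _), tsum_div_const, tsum_mul_right,
      ← le_sub_iff_add_le, div_le_iff₀ (by positivity)]
    exact e4.trans (le_of_eq (by ring))
  simp only [e1, pk, pp, pow_zero, NNReal.coe_one, mul_one, sum_const, card_sigma, sum_singleton,
    card_univ, Fintype.card_fin, nsmul_eq_mul, Nat.cast_pow, ← hw] at e3
  have e6 : (∑' n, c n) * μ < w ^ j * (w ^ K * w ^ (K + j)) := by
    rw [hμ, mul_assoc, ← mul_assoc]
    exact mul_lt_mul_of_pos_right (hj.trans_le (pow_le_pow_left₀ zero_le_two w2 j)) (by positivity)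
  exact ((e3.trans e5).trans_lt e6).ne (by ring)

end Pool.Agent.Results.MP_07c133_an.No
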